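import Pool.Agent.helper22.JS.SpecS
import Pool.Agent.helper28.BR.MOM

/-!
# Module js:SMO (MP_70a088_an): all moments of a density with locally vanishing Cauchy transform
-/

set_option autoImplicit false

open Complex Metric Set Filter Topology MeasureTheory
open Pool.Agent.helper98.ILF
open WP (it)
open PM (ER JJ)

noncomputable section

namespace JS

theorem SMO (h : NLF.CTB_stmt) : SMO_stmt := by
  intro μ z₀ ρ ρ' hρ hρ' hm hb hs hann h0 j
  set R : ℝ := (ρ + ρ') / 2 with hR
  have hR1 : ρ < R := by rw [hR]; linarith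
  have hR2 : R < ρ' := by rw [hR]; linarith
  have hR0 : 0 < R := hρ.trans hR1
  have hsph : ∀ w ∈ sphere z₀ R, NLF.CT μ w = 0 := by
    intro w hw
    rw [mem_sphere, dist_eq_norm] at hw
    exact h0 w (by rw [hw]; exact hR1) (by rw [hw]; exact hR2)
  have h1 := BR.MOM_ball h μ hm hb hs z₀ R hR0 hsph j
  rw [← h1]
  refine setIntegral_eq_of_subset_of_forall_sdiff_eq_zero measurableSet_ball
    (ball_subset_ball hR1.le) (fun z hz => ?_) |>.symm
  have hz1 : ‖z - z₀‖ < R := by
    have := hz.1
    rwa [mem_ball, dist_eq_norm] at this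
  have hz2 : ρ ≤ ‖z - z₀‖ := by
    have := hz.2
    rw [mem_ball, dist_eq_norm] at this
    exact not_lt.1 this
  rw [hann z hz2 (hz1.trans hR2), zero_mul]

end JS
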